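import Mathlib

namespace Pool.Agent.Results.MP_d057eb_an.Yes

open MeasureTheory Filter Topology Finset Metric
open scoped ENNReal

/-- The energy `∬ log |z - w| dμ dμ` in `[-∞, ∞]`: positive part minus negative part, with
`log 0 = -∞`. -/
noncomputable def energy (μ : Measure ℂ) : EReal :=
  ((∫⁻ p, (ENNReal.log (edist p.1 p.2)).toENNReal ∂(μ.prod μ) : ℝ≥0∞) : EReal) -
    ((∫⁻ p, (-ENNReal.log (edist p.1 p.2)).toENNReal ∂(μ.prod μ) : ℝ≥0∞) : EReal)

/-- Logarithmic capacity. -/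
noncomputable def cap (E : Set ℂ) : ℝ :=
  (EReal.exp (⨆ (μ : Measure ℂ) (_ : IsProbabilityMeasure μ ∧ μ Eᶜ = 0), energy μ)).toReal

/-- The `n`-th diameter. -/
noncomputable def delta (n : ℕ) (E : Set ℂ) : ℝ :=
  sSup {x | ∃ w : Fin n → ℂ, (∀ j, w j ∈ E) ∧
    x = ∏ j, ∏ k ∈ Ioi j, ‖w j - w k‖ ^ ((2 : ℝ) / (n * (n - 1)))}

/-- The closed `ε`-neighbourhood. -/
def nbhd (K : Set ℂ) (ε : ℝ) : Set ℂ := {z | infDist z K ≤ ε}

open Classical in
noncomputable def ker (L : ℝ) (p : ℂ × ℂ) : ℝ≥0∞ :=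
  if p.1 = p.2 then ⊤ else ENNReal.ofReal (L - Real.log ‖p.1 - p.2‖)

lemma ker_meas (L : ℝ) : Measurable (ker L) :=
  Measurable.ite (measurableSet_eq_fun measurable_fst measurable_snd) measurable_const
    (by fun_prop)

lemma ker_comm (L : ℝ) (z w : ℂ) : ker L (z, w) = ker L (w, z) := by
  simp only [ker, eq_comm (a := z), norm_sub_rev z]

/-- All distances in `E` have logarithm at most `L`. -/
def Bd (L : ℝ) (E : Set ℂ) : Prop := 0 ≤ L ∧ ∀ z ∈ E, ∀ w ∈ E, Real.log ‖z - w‖ ≤ L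

lemma ae_prod {μ : Measure ℂ} [IsProbabilityMeasure μ] {E : Set ℂ} (hE : μ Eᶜ = 0) :
    ∀ᵐ p ∂(μ.prod μ), p.1 ∈ E ∧ p.2 ∈ E :=
  (measurePreserving_fst.quasiMeasurePreserving.ae (p := (· ∈ E)) hE).and
    (measurePreserving_snd.quasiMeasurePreserving.ae (p := (· ∈ E)) hE)

lemma energy_eq {μ : Measure ℂ} [IsProbabilityMeasure μ] {E : Set ℂ} (hE : μ Eᶜ = 0) {L : ℝ}
    (hL : Bd L E) : energy μ = L - ((∫⁻ p, ker L p ∂(μ.prod μ) : ℝ≥0∞) : EReal) := by
  have hlog : ∀ z w : ℂ, z ≠ w → ENNReal.log (edist z w) = Real.log ‖z - w‖ := fun z w h => by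
    rw [edist_dist, dist_eq_norm, ENNReal.log_ofReal_of_pos (norm_pos_iff.2 (sub_ne_zero.2 h))]
  have h1 : ∫⁻ p, ker L p ∂(μ.prod μ) + ∫⁻ p, (ENNReal.log (edist p.1 p.2)).toENNReal ∂(μ.prod μ)
      = ENNReal.ofReal L + ∫⁻ p, (-ENNReal.log (edist p.1 p.2)).toENNReal ∂(μ.prod μ) := by
    rw [← lintegral_add_left (ker_meas L), ← mul_one (ENNReal.ofReal L),
      ← measure_univ (μ := μ.prod μ), ← lintegral_const, ← lintegral_add_left measurable_const]
    refine lintegral_congr_ae ((ae_prod hE).mono fun p hp => ?_)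
    by_cases h : p.1 = p.2
    · simp [ker, h]
    · have := hL.2 _ hp.1 _ hp.2
      have h0 := hL.1
      simp only [ker, if_neg h, hlog _ _ h, ← EReal.coe_neg, EReal.real_coe_toENNReal]
      rcases le_total 0 (Real.log ‖p.1 - p.2‖) with h' | h'
      · rw [← ENNReal.ofReal_add (by linarith) h', ENNReal.ofReal_of_nonpos (neg_nonpos.2 h')]
        simp
      · rw [← ENNReal.ofReal_add h0 (neg_nonneg.2 h'), ENNReal.ofReal_of_nonpos h', add_zero,
          sub_eq_add_neg]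
  have h2 : ∫⁻ p, (ENNReal.log (edist p.1 p.2)).toENNReal ∂(μ.prod μ) ≤ ENNReal.ofReal L := by
    rw [← mul_one (ENNReal.ofReal L), ← measure_univ (μ := μ.prod μ), ← lintegral_const]
    refine lintegral_mono_ae ((ae_prod hE).mono fun p hp => ?_)
    by_cases h : p.1 = p.2
    · simp [h]
    · rw [hlog _ _ h, EReal.real_coe_toENNReal]
      exact ENNReal.ofReal_le_ofReal (hL.2 _ hp.1 _ hp.2)
  rw [energy]
  generalize ∫⁻ p, ker L p ∂(μ.prod μ) = J at h1
  generalize ∫⁻ p, (ENNReal.log (edist p.1 p.2)).toENNReal ∂(μ.prod μ) = P at h1 h2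
  generalize ∫⁻ p, (-ENNReal.log (edist p.1 p.2)).toENNReal ∂(μ.prod μ) = M at h1
  have hP : P ≠ ⊤ := ne_top_of_le_ne_top ENNReal.ofReal_ne_top h2
  rcases eq_or_ne M ⊤ with rfl | hM
  · have : J = ⊤ := by simpa [hP] using h1
    simp [this]
  · have hJ : J ≠ ⊤ := by rintro rfl; simp [hM, eq_comm] at h1
    have := congrArg ENNReal.toReal h1
    rw [ENNReal.toReal_add hJ hP, ENNReal.toReal_add ENNReal.ofReal_ne_top hM,
      ENNReal.toReal_ofReal hL.1] at this
    rw [← EReal.coe_ennreal_toReal hP, ← EReal.coe_ennreal_toReal hM,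
      ← EReal.coe_ennreal_toReal hJ, ← EReal.coe_sub, ← EReal.coe_sub]
    congr 1; linarith

variable {n : ℕ}

noncomputable def T (w : Fin n → ℂ) : ℝ := ∑ j, ∑ k ∈ Ioi j, Real.log ‖w j - w k‖

noncomputable def V (w : Fin n → ℂ) : ℝ :=
  ∏ j, ∏ k ∈ Ioi j, ‖w j - w k‖ ^ ((2 : ℝ) / (n * (n - 1)))

lemma pairs (x : ℝ) : ∑ j : Fin n, ∑ _k ∈ Ioi j, x = n * (n - 1) / 2 * x := by
  have := sum_sum_Ioi_add_eq_sum_sum_off_diag (fun _ _ : Fin n => x)
  simp only [sum_add_distrib] at this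
  rcases n with _ | n
  · simp
  · simp only [sum_const, card_compl, Fintype.card_fin, card_singleton, card_univ,
      Nat.add_sub_cancel, nsmul_eq_mul] at this ⊢
    push_cast at this ⊢
    linarith

lemma V_eq {w : Fin n → ℂ} (hw : Function.Injective w) :
    V w = Real.exp (2 / (n * (n - 1)) * T w) := by
  simp only [V, T, mul_sum, Real.exp_sum]
  refine prod_congr rfl fun j _ => prod_congr rfl fun k hk => ?_
  rw [Real.rpow_def_of_pos (norm_pos_iff.2 (sub_ne_zero.2 (hw.ne (mem_Ioi.1 hk).ne))), mul_comm]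

lemma ex_pair {w : Fin n → ℂ} (hw : ¬ Function.Injective w) : ∃ j k, j < k ∧ w j = w k := by
  simp only [Function.Injective, not_forall] at hw
  obtain ⟨j, k, h, hne⟩ := hw
  rcases lt_or_gt_of_ne hne with h' | h'
  exacts [⟨j, k, h', h⟩, ⟨k, j, h', h.symm⟩]

lemma V_zero (hn : 2 ≤ n) {w : Fin n → ℂ} (hw : ¬ Function.Injective w) : V w = 0 := by
  obtain ⟨j, k, h, e⟩ := ex_pair hw
  have h2 : (2 : ℝ) ≤ n := by exact_mod_cast hn
  have : 0 < (n : ℝ) - 1 := by linarith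
  refine prod_eq_zero (mem_univ j) (prod_eq_zero (mem_Ioi.2 h) ?_)
  rw [e, sub_self, norm_zero, Real.zero_rpow (by positivity)]

lemma V_le (hn : 2 ≤ n) {E : Set ℂ} {a : ℝ}
    (h : ∀ w : Fin n → ℂ, (∀ j, w j ∈ E) → Function.Injective w → T w ≤ n * (n - 1) / 2 * a)
    (w : Fin n → ℂ) (hw : ∀ j, w j ∈ E) : V w ≤ Real.exp a := by
  have h2 : (2 : ℝ) ≤ n := by exact_mod_cast hn
  have : 0 < (n : ℝ) - 1 := by linarith
  by_cases hi : Function.Injective w
  · rw [V_eq hi, Real.exp_le_exp]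
    refine (mul_le_mul_of_nonneg_left (h w hw hi) (by positivity)).trans_eq ?_
    field_simp
  · rw [V_zero hn hi]; positivity

lemma T_le {E : Set ℂ} {L : ℝ} (hL : Bd L E) (w : Fin n → ℂ) (hw : ∀ j, w j ∈ E) :
    T w ≤ n * (n - 1) / 2 * L := by
  rw [← pairs]
  exact sum_le_sum fun j _ => sum_le_sum fun k _ => hL.2 _ (hw j) _ (hw k)

lemma le_delta (hn : 2 ≤ n) {E : Set ℂ} {L : ℝ} (hL : Bd L E) {w : Fin n → ℂ}
    (hw : ∀ j, w j ∈ E) : V w ≤ delta n E :=
  le_csSup ⟨Real.exp L, by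
    rintro _ ⟨w, hw, rfl⟩
    exact V_le hn (fun w hw _ => T_le hL w hw) w hw⟩ ⟨w, hw, rfl⟩

lemma energy_le (hn : 2 ≤ n) {μ : Measure ℂ} [IsProbabilityMeasure μ] {E : Set ℂ}
    (hE : μ Eᶜ = 0) {L : ℝ} (hL : Bd L E) : energy μ ≤ Real.log (delta n E) := by
  have h2 : (2 : ℝ) ≤ n := by exact_mod_cast hn
  have h1 : 0 < (n : ℝ) - 1 := by linarith
  have hN : 0 < (n : ℝ) * (n - 1) / 2 := by positivity
  have hp : ∀ j k : Fin n, j ≠ k → ∫⁻ w, ker L (w j, w k) ∂(Measure.pi fun _ : Fin n => μ) =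
      ∫⁻ p, ker L p ∂(μ.prod μ) := fun j k h => by
    have :=
      ((ProbabilityTheory.iIndepFun_pi (μ := fun _ : Fin n => μ) (X := fun _ => id)
      fun _ => aemeasurable_id).indepFun h).map_prod_eq_prod_map_map
      (measurable_pi_apply j).aemeasurable (measurable_pi_apply k).aemeasurable
    have e : ∀ j, Measure.map (fun f : Fin n → ℂ => f j) (Measure.pi fun _ => μ) = μ := fun j =>
      (measurePreserving_eval (fun _ : Fin n => μ) j).map_eq
    rw [e, e] at this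
    rw [← this, lintegral_map (ker_meas L) (by fun_prop)]
  have hae : ∀ᵐ w ∂(Measure.pi fun _ : Fin n => μ), ∀ j, w j ∈ E :=
    ae_all_iff.2 fun j => (measurePreserving_eval (fun _ : Fin n => μ) j).quasiMeasurePreserving.ae
      (p := (· ∈ E)) hE
  have key : ENNReal.ofReal (n * (n - 1) / 2 * (L - Real.log (delta n E))) ≤
      ∑ j : Fin n, ∑ _k ∈ Ioi j, ∫⁻ p, ker L p ∂(μ.prod μ) := by
    have m : ∀ j k : Fin n, Measurable fun w : Fin n → ℂ => ker L (w j, w k) := fun j k =>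
      (ker_meas L).comp (by fun_prop)
    rw [sum_congr rfl fun j _ => sum_congr rfl fun k hk => (hp j k (mem_Ioi.1 hk).ne).symm]
    simp only [← lintegral_finset_sum _ fun k _ => m _ k]
    rw [← lintegral_finset_sum _ fun j _ => Finset.measurable_sum _ fun k _ => m j k,
      ← mul_one (ENNReal.ofReal _), ← measure_univ (μ := Measure.pi fun _ : Fin n => μ),
      ← lintegral_const]
    refine lintegral_mono_ae (hae.mono fun w hw => ?_)
    by_cases hi : Function.Injective w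
    · have h3 := Real.log_le_log (by rw [V_eq hi]; positivity) (le_delta hn hL hw)
      rw [V_eq hi, Real.log_exp] at h3
      have h4 : T w ≤ n * (n - 1) / 2 * Real.log (delta n E) :=
        le_of_eq_of_le (by field_simp) (mul_le_mul_of_nonneg_left h3 hN.le)
      have h5 : ∀ j k, 0 ≤ L - Real.log ‖w j - w k‖ := fun j k =>
        sub_nonneg.2 (hL.2 _ (hw j) _ (hw k))
      have h6 : ∀ j, ∀ k ∈ Ioi j, ker L (w j, w k) = ENNReal.ofReal (L - Real.log ‖w j - w k‖) :=
        fun j k hk => if_neg (hi.ne (mem_Ioi.1 hk).ne)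
      rw [sum_congr rfl fun j _ => sum_congr rfl (h6 j)]
      simp only [← ENNReal.ofReal_sum_of_nonneg fun k _ => h5 _ k]
      rw [← ENNReal.ofReal_sum_of_nonneg fun j _ => sum_nonneg fun k _ => h5 j k]
      refine ENNReal.ofReal_le_ofReal ?_
      simp only [sum_sub_distrib, pairs]
      rw [T] at h4
      linarith
    · obtain ⟨j, k, h, e⟩ := ex_pair hi
      rw [ENNReal.sum_eq_top.2 ⟨j, mem_univ _, ENNReal.sum_eq_top.2 ⟨k, mem_Ioi.2 h, if_pos e⟩⟩]
      exact le_top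
  rw [energy_eq hE hL]
  generalize ∫⁻ p, ker L p ∂(μ.prod μ) = J at key
  rcases eq_or_ne J ⊤ with rfl | hJ
  · simp
  · rw [← ENNReal.ofReal_toReal hJ] at key
    simp only [← ENNReal.ofReal_sum_of_nonneg fun _ _ => ENNReal.toReal_nonneg] at key
    rw [← ENNReal.ofReal_sum_of_nonneg fun j _ => sum_nonneg fun k _ => ENNReal.toReal_nonneg,
      pairs, ENNReal.ofReal_le_ofReal_iff (by positivity), mul_le_mul_iff_right₀ hN] at key
    rw [← EReal.coe_ennreal_toReal hJ, ← EReal.coe_sub, EReal.coe_le_coe_iff]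
    linarith

/-! ### Circle measures -/

noncomputable def circ (c : ℂ) (r : ℝ) : Measure ℂ :=
  ENNReal.ofReal (2 * Real.pi)⁻¹ • (volume.restrict (Set.Ioc 0 (2 * Real.pi))).map (circleMap c r)

instance (c : ℂ) (r : ℝ) : IsProbabilityMeasure (circ c r) := ⟨by
  have := Real.pi_pos
  rw [circ, Measure.smul_apply, Measure.map_apply (by fun_prop) MeasurableSet.univ,
    Set.preimage_univ, Measure.restrict_apply_univ, Real.volume_Ioc, sub_zero, smul_eq_mul,
    ← ENNReal.ofReal_mul (by positivity), inv_mul_cancel₀ (by positivity), ENNReal.ofReal_one]⟩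

lemma circ_null (c : ℂ) {r : ℝ} (hr : 0 < r) {E : Set ℂ} (h : sphere c r ⊆ E) :
    circ c r Eᶜ = 0 := by
  refine measure_mono_null (Set.compl_subset_compl.2 h) ?_
  rw [circ, Measure.smul_apply, Measure.map_apply (by fun_prop) isClosed_sphere.measurableSet.compl]
  have : circleMap c r ⁻¹' (sphere c r)ᶜ = ∅ := by
    ext θ; simpa using circleMap_mem_sphere c hr.le θ
  simp [this]

lemma circ_int (c z : ℂ) {r L : ℝ} (hr : 0 < r) (h : ∀ w ∈ sphere c r, Real.log ‖w - z‖ ≤ L) :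
    ∫⁻ w, ker L (w, z) ∂(circ c r) =
      ENNReal.ofReal (L - (Real.log r + Real.posLog (r⁻¹ * ‖c - z‖))) := by
  have hπ := Real.pi_pos
  have hi := (circleIntegrable_log_norm_sub_const (a := z) (c := c) r).1
  have m : Measurable fun w => ker L (w, z) := (ker_meas L).comp (by fun_prop)
  rw [circ, lintegral_smul_measure, lintegral_map m (by fun_prop),
    ← circleAverage_log_norm_sub_const_eq_log_radius_add_posLog hr.ne', Real.circleAverage_def,
    intervalIntegral.integral_of_le (by positivity),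
    lintegral_congr_ae (g := fun θ => ENNReal.ofReal (L - Real.log ‖circleMap c r θ - z‖)),
    ← ofReal_integral_eq_lintegral_ofReal (f := fun θ => L - Real.log ‖circleMap c r θ - z‖)
      ((integrable_const L).sub hi)
      (Eventually.of_forall fun θ => sub_nonneg.2 (h _ (circleMap_mem_sphere c hr.le θ))),
    smul_eq_mul, ← ENNReal.ofReal_mul (by positivity)]
  · rw [integral_sub (integrable_const L) hi, integral_const, smul_eq_mul, smul_eq_mul]
    congr 1
    simp only [Measure.real, Measure.restrict_apply_univ, Real.volume_Ioc, sub_zero]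
    rw [ENNReal.toReal_ofReal (by positivity)]
    field_simp
  · refine ae_restrict_of_ae ?_
    filter_upwards [((Set.countable_singleton z).preimage_circleMap c hr.ne').ae_notMem volume]
      with θ hθ
    exact if_neg hθ

lemma circ_le (c z : ℂ) {r L : ℝ} (hr : 0 < r) (h : ∀ w ∈ sphere c r, Real.log ‖w - z‖ ≤ L) :
    ∫⁻ w, ker L (w, z) ∂(circ c r) ≤ ENNReal.ofReal (L - Real.log r) ∧
    ∫⁻ w, ker L (w, z) ∂(circ c r) ≤ ker L (c, z) := by
  rw [circ_int c z hr h]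
  refine ⟨ENNReal.ofReal_le_ofReal (by linarith [Real.posLog_nonneg (x := r⁻¹ * ‖c - z‖)]), ?_⟩
  by_cases e : c = z
  · simp [ker, e]
  · rw [ker, if_neg e]
    refine ENNReal.ofReal_le_ofReal ?_
    have : Real.log (r⁻¹ * ‖c - z‖) ≤ Real.posLog (r⁻¹ * ‖c - z‖) := le_max_right _ _
    rw [Real.log_mul (inv_pos.2 hr).ne' (norm_ne_zero_iff.2 (sub_ne_zero.2 e)), Real.log_inv] at this
    linarith

lemma le_energy (hn : 2 ≤ n) {E : Set ℂ} {L r : ℝ} (hL : Bd L E) (hr : 0 < r) {w : Fin n → ℂ}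
    (hi : Function.Injective w) (hw : ∀ j, closedBall (w j) r ⊆ E) :
    ∃ μ : Measure ℂ, (IsProbabilityMeasure μ ∧ μ Eᶜ = 0) ∧
      (((2 * T w + n * Real.log r) / n ^ 2 : ℝ) : EReal) ≤ energy μ := by
  have h2 : (2 : ℝ) ≤ n := by exact_mod_cast hn
  have hn0 : (n : ℝ≥0∞) ≠ 0 := by simp; omega
  have hs : ∀ j, sphere (w j) r ⊆ E := fun j => sphere_subset_closedBall.trans (hw j)
  have hc : ∀ j, w j ∈ E := fun j => hw j (mem_closedBall_self hr.le)
  obtain ⟨μ, hμ⟩ : ∃ μ : Measure ℂ, μ = (n : ℝ≥0∞)⁻¹ • ∑ j, circ (w j) r := ⟨_, rfl⟩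
  haveI hP : IsProbabilityMeasure μ := ⟨by
    simp [hμ, Measure.finset_sum_apply, ENNReal.inv_mul_cancel hn0]⟩
  have hE : μ Eᶜ = 0 := by
    simp [hμ, Measure.finset_sum_apply, fun j => circ_null (w j) hr (hs j)]
  refine ⟨μ, ⟨hP, hE⟩, ?_⟩
  have hint : ∀ f : ℂ → ℝ≥0∞, ∫⁻ z, f z ∂μ = (n : ℝ≥0∞)⁻¹ * ∑ j, ∫⁻ z, f z ∂(circ (w j) r) :=
    fun f => by rw [hμ, lintegral_smul_measure, lintegral_finset_sum_measure, smul_eq_mul]
  have hlr : Real.log r ≤ L := by
    have := hL.2 _ (hw ⟨0, by omega⟩ (show w ⟨0, by omega⟩ + r ∈ _ by simp [abs_of_pos hr])) _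
      (hc ⟨0, by omega⟩)
    simpa [abs_of_pos hr] using this
  have h5 : ∀ j k, 0 ≤ L - Real.log ‖w j - w k‖ := fun j k =>
    sub_nonneg.2 (hL.2 _ (hc j) _ (hc k))
  have key : ∫⁻ p, ker L p ∂(μ.prod μ) ≤
      ENNReal.ofReal (L - (2 * T w + n * Real.log r) / n ^ 2) := by
    have m : ∀ j, Measurable fun z => ∫⁻ u, ker L (u, z) ∂(circ (w j) r) := fun j =>
      (ker_meas L).lintegral_prod_left'
    rw [lintegral_prod_symm _ (ker_meas L).aemeasurable, hint]
    simp only [hint, lintegral_const_mul' _ _ (ENNReal.inv_ne_top.2 hn0),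
      lintegral_finset_sum _ fun j _ => m j, ← mul_sum, ← mul_assoc]
    have h6 : ∑ k, ∑ j, ∫⁻ z, ∫⁻ u, ker L (u, z) ∂(circ (w j) r) ∂(circ (w k) r) ≤
        ∑ k : Fin n, (ENNReal.ofReal (L - Real.log r) +
          ∑ j ∈ {k}ᶜ, ENNReal.ofReal (L - Real.log ‖w j - w k‖)) := by
      refine sum_le_sum fun k _ => ?_
      have hz : ∀ᵐ z ∂(circ (w k) r), z ∈ E := circ_null _ hr (hs k)
      rw [← sum_add_sum_compl {k}, sum_singleton]
      refine add_le_add ?_ (sum_le_sum fun j hj => ?_)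
      · refine (lintegral_mono_ae (hz.mono fun z hz =>
          (circ_le _ z hr fun u hu => hL.2 _ (hs k hu) _ hz).1)).trans (by simp)
      · refine (lintegral_mono_ae (hz.mono fun z hz =>
          (circ_le _ z hr fun u hu => hL.2 _ (hs j hu) _ hz).2)).trans ?_
        simp only [ker_comm L (w j)]
        refine (circ_le _ _ hr fun u hu => hL.2 _ (hs k hu) _ (hc j)).2.trans_eq ?_
        rw [ker_comm, ker, if_neg (hi.ne (by simpa using hj))]
    refine (mul_le_mul_right h6 _).trans_eq ?_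
    simp only [← ENNReal.ofReal_sum_of_nonneg fun j _ => h5 j _,
      ← ENNReal.ofReal_add (sub_nonneg.2 hlr) (sum_nonneg fun j _ => h5 j _)]
    rw [← ENNReal.ofReal_sum_of_nonneg fun k _ => add_nonneg (sub_nonneg.2 hlr)
      (sum_nonneg fun j _ => h5 j _), ← ENNReal.ofReal_natCast,
      ← ENNReal.ofReal_inv_of_pos (by positivity), ← ENNReal.ofReal_mul (by positivity),
      ← ENNReal.ofReal_mul (by positivity), sum_add_distrib,
      ← sum_sum_Ioi_add_eq_sum_sum_off_diag (fun j k => L - Real.log ‖w j - w k‖)]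
    congr 1
    simp only [sum_add_distrib, sum_sub_distrib, pairs, fun j k => norm_sub_rev (w k) (w j)]
    simp only [sum_const, card_univ, Fintype.card_fin, nsmul_eq_mul, T,
      fun j k => norm_sub_rev (w k) (w j)]
    field_simp
    ring
  rw [energy_eq hE hL]
  have hJ := ne_top_of_le_ne_top ENNReal.ofReal_ne_top key
  have h7 : (2 * T w + n * Real.log r) / n ^ 2 ≤ L := by
    have := T_le hL w hc
    rw [div_le_iff₀ (by positivity)]
    nlinarith
  rw [← EReal.coe_ennreal_toReal hJ, ← EReal.coe_sub, EReal.coe_le_coe_iff]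
  linarith [ENNReal.toReal_le_of_le_ofReal (sub_nonneg.2 h7) key]

lemma shrink {K : Set ℂ} (hK : IsCompact K) (hne : K.Nonempty) {ε s : ℝ} (hs0 : 0 < s)
    (hs1 : s ≤ 1) {w : Fin n → ℂ} (hi : Function.Injective w) (hw : ∀ j, w j ∈ nbhd K ε) :
    ∃ w' : Fin n → ℂ, Function.Injective w' ∧ (∀ j, w' j ∈ nbhd K (s * ε)) ∧
      n * (n - 1) / 2 * Real.log s + T w ≤ T w' := by
  choose k hk hd using fun j => hK.exists_infDist_eq_dist hne (w j)
  obtain ⟨u, hu, hmax⟩ := Complex.exists_mem_frontier_isMaxOn_norm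
    (f := fun u : ℂ => ∏ j, ∏ l ∈ Ioi j, (u * (k j - k l) + s * ((w j - k j) - (w l - k l))))
    (isBounded_ball (x := (0 : ℂ)) (r := 1)) ⟨0, mem_ball_self one_pos⟩
    (Differentiable.diffContOnCl (by fun_prop))
  rw [frontier_ball _ one_ne_zero, mem_sphere_zero_iff_norm] at hu
  have hu0 : u ≠ 0 := by rintro rfl; simp at hu
  have h1 := hmax (show (s : ℂ) ∈ closure (ball 0 1) by
    rw [closure_ball _ one_ne_zero]; simpa [abs_of_pos hs0])
  have e1 : ∀ j l, ‖u * (k j - k l) + s * ((w j - k j) - (w l - k l))‖ =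
      ‖(k j + s * (w j - k j) / u) - (k l + s * (w l - k l) / u)‖ := fun j l => by
    rw [← one_mul ‖_ - _‖, ← hu, ← norm_mul]; congr 1; field_simp; ring
  have e2 : ∀ j l, ‖(s : ℂ) * (k j - k l) + s * ((w j - k j) - (w l - k l))‖ =
      s * ‖w j - w l‖ := fun j l => by
    rw [← mul_add, norm_mul, Complex.norm_real, Real.norm_of_nonneg hs0.le]; congr 2; ring
  simp only [Set.mem_setOf_eq, Function.comp, norm_prod, e1, e2] at h1
  have p1 : ∀ j, ∀ l ∈ Ioi j, 0 < ‖w j - w l‖ := fun j l hl =>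
    norm_pos_iff.2 (sub_ne_zero.2 (hi.ne (mem_Ioi.1 hl).ne))
  have p2 : 0 < ∏ j, ∏ l ∈ Ioi j, s * ‖w j - w l‖ :=
    prod_pos fun j _ => prod_pos fun l hl => mul_pos hs0 (p1 j l hl)
  have p3 := prod_ne_zero_iff.1 (p2.trans_le h1).ne'
  refine ⟨fun j => k j + s * (w j - k j) / u, ?_, fun j => ?_, ?_⟩
  · by_contra hn
    obtain ⟨j, l, h, e⟩ := ex_pair hn
    exact prod_ne_zero_iff.1 (p3 j (mem_univ _)) l (mem_Ioi.2 h) (by simp only [e]; simp)
  · refine (infDist_le_dist_of_mem (hk j)).trans ?_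
    rw [dist_eq_norm, add_sub_cancel_left, norm_div, hu, div_one, norm_mul, Complex.norm_real,
      Real.norm_of_nonneg hs0.le, ← dist_eq_norm, ← hd]
    exact mul_le_mul_of_nonneg_left (hw j) hs0.le
  · have := Real.log_le_log p2 h1
    rw [Real.log_prod p3, Real.log_prod fun j _ => (prod_pos fun l hl =>
      mul_pos hs0 (p1 j l hl)).ne'] at this
    rw [sum_congr rfl fun j _ => Real.log_prod fun l hl => (mul_pos hs0 (p1 j l hl)).ne',
      sum_congr rfl fun j _ => Real.log_prod (prod_ne_zero_iff.1 (p3 j (mem_univ _))),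
      sum_congr rfl fun j _ => sum_congr rfl fun l hl =>
        Real.log_mul hs0.ne' (p1 j l hl).ne'] at this
    simpa only [sum_add_distrib, pairs, T] using this

lemma ratio {K : Set ℂ} (hK : IsCompact K) (hne : K.Nonempty) {L : ℝ} (hL : Bd L (nbhd K 1))
    (hn : 2 ≤ n) : 1 ≤ delta n (nbhd K (1 / n)) / cap (nbhd K (1 / n)) ∧
      delta n (nbhd K (1 / n)) / cap (nbhd K (1 / n)) ≤
        Real.exp (L / n - Real.log (1 - 1 / n) + 2 * (Real.log n / n)) := by
  have h2 : (2 : ℝ) ≤ n := by exact_mod_cast hn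
  have h3 : (1 : ℝ) / n ≤ 1 / 2 := by gcongr
  have h4 : (0 : ℝ) < 1 / n := by positivity
  have hL' : Bd L (nbhd K (1 / n)) := ⟨hL.1, fun z hz w hw =>
    hL.2 z (le_trans (b := 1 / (n : ℝ)) (c := 1) hz (by linarith)) w
      (le_trans (b := 1 / (n : ℝ)) (c := 1) hw (by linarith))⟩
  obtain ⟨k, hk⟩ := hne
  have hi0 : Function.Injective fun j : Fin n => k + (((j : ℕ) / n ^ 2 : ℝ) : ℂ) := fun a b h => by
    have h := Complex.ofReal_injective (add_left_cancel h)
    rw [div_left_inj' (by positivity)] at h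
    exact Fin.ext (by exact_mod_cast h)
  have hw0 : ∀ j : Fin n, k + (((j : ℕ) / n ^ 2 : ℝ) : ℂ) ∈ nbhd K (1 / n) := fun j => by
    refine (infDist_le_dist_of_mem hk).trans ?_
    rw [dist_eq_norm, add_sub_cancel_left, Complex.norm_real, Real.norm_of_nonneg (by positivity),
      div_le_div_iff₀ (by positivity) (by positivity)]
    have : ((j : ℕ) : ℝ) ≤ n := by exact_mod_cast j.2.le
    nlinarith
  have hδ : 0 < delta n (nbhd K (1 / n)) :=
    lt_of_lt_of_le (by rw [V_eq hi0]; positivity) (le_delta hn hL' hw0)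
  obtain ⟨S, hS⟩ : ∃ S, S = ⨆ (μ : Measure ℂ)
    (_ : IsProbabilityMeasure μ ∧ μ (nbhd K (1 / n))ᶜ = 0), energy μ := ⟨_, rfl⟩
  have hup : S ≤ Real.log (delta n (nbhd K (1 / n))) :=
    hS ▸ iSup₂_le fun μ hμ => haveI := hμ.1; energy_le hn hμ.2 hL'
  have hlo : ∀ w : Fin n → ℂ, (∀ j, w j ∈ nbhd K (1 / n)) → Function.Injective w →
      ((2 / (n * (n - 1)) * T w - (L / n - Real.log (1 - 1 / n) + 2 * (Real.log n / n)) : ℝ) :
        EReal) ≤ S := fun w hw hi => by
    obtain ⟨w', hi', hw', hT⟩ := shrink hK ⟨k, hk⟩ (s := 1 - 1 / n) (by linarith) (by linarith)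
      hi hw
    obtain ⟨μ, hμ, h⟩ := le_energy hn hL' (r := 1 / n * (1 / n)) (by positivity) hi'
      fun j z hz => (infDist_le_infDist_add_dist (y := w' j)).trans
        (by have := hw' j; rw [mem_closedBall] at hz; simp only [nbhd, Set.mem_setOf_eq] at this
            linarith)
    refine le_trans ?_ (h.trans (hS ▸ le_iSup₂_of_le (f := fun (μ : Measure ℂ)
      (_ : IsProbabilityMeasure μ ∧ μ (nbhd K (1 / n))ᶜ = 0) => energy μ) μ hμ le_rfl))
    rw [EReal.coe_le_coe_iff, Real.log_mul h4.ne' h4.ne', one_div, Real.log_inv]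
    have h5 := T_le hL' w hw
    have h6 : Real.log (1 - (n : ℝ)⁻¹) ≤ 0 :=
      Real.log_nonpos (by rw [← one_div]; linarith) (by rw [← one_div]; linarith)
    rw [one_div] at hT
    have h1 : 0 < (n : ℝ) - 1 := by linarith
    obtain ⟨t, ht⟩ : ∃ t, T w = n * (n - 1) / 2 * t := ⟨2 / (n * (n - 1)) * T w, by field_simp⟩
    rw [ht, mul_le_mul_iff_right₀ (by positivity)] at h5
    rw [ht] at hT ⊢
    rw [le_div_iff₀ (by positivity)]
    have e : (2 / (n * (n - 1)) * (n * (n - 1) / 2 * t) - (L / n - Real.log (1 - (n : ℝ)⁻¹) +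
        2 * (Real.log n / n))) * n ^ 2 = n ^ 2 * t - n * L + n ^ 2 * Real.log (1 - (n : ℝ)⁻¹) -
        2 * n * Real.log n := by field_simp; ring
    rw [e]
    nlinarith
  have hb : S ≠ ⊥ := ne_bot_of_le_ne_bot (EReal.coe_ne_bot _) (hlo _ hw0 hi0)
  have ht : S ≠ ⊤ := ne_top_of_le_ne_top (EReal.coe_ne_top _) hup
  lift S to ℝ using ⟨ht, hb⟩
  rw [cap, ← hS, EReal.exp_coe, ENNReal.toReal_ofReal (Real.exp_pos _).le,
    one_le_div (Real.exp_pos _), div_le_iff₀ (Real.exp_pos _), ← Real.exp_add]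
  refine ⟨(Real.le_log_iff_exp_le hδ).1 (EReal.coe_le_coe_iff.1 hup),
    csSup_le ⟨_, _, hw0, rfl⟩ ?_⟩
  rintro _ ⟨w, hw, rfl⟩
  refine V_le hn (fun w hw hi => ?_) w hw
  have := EReal.coe_le_coe_iff.1 (hlo w hw hi)
  have h1 : 0 < (n : ℝ) - 1 := by linarith
  rw [← div_le_iff₀' (by positivity)]
  refine le_of_eq_of_le (b := 2 / (n * (n - 1)) * T w) (by field_simp) (by linarith)

theorem result (K : Set ℂ) (hK : IsCompact K) (hne : K.Nonempty) :
    Tendsto (fun n : ℕ => delta n (nbhd K (1 / n)) / cap (nbhd K (1 / n))) atTop (𝓝 1) := by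
  obtain ⟨R, hR0, hR⟩ := hK.isBounded.exists_pos_norm_le
  have hL : Bd (2 * (R + 1)) (nbhd K 1) := ⟨by positivity, fun z hz w hw => by
    have : ∀ z ∈ nbhd K 1, ‖z‖ ≤ R + 1 := fun z hz => by
      obtain ⟨k, hk, e⟩ := hK.exists_infDist_eq_dist hne z
      have h1 : dist z k ≤ 1 := e ▸ hz
      have := hR k hk
      have := norm_le_norm_add_norm_sub' z k
      rw [dist_eq_norm] at h1
      linarith
    linarith [Real.log_le_self (norm_nonneg (z - w)), norm_sub_le z w, this z hz, this w hw]⟩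
  have h1 : Tendsto (fun n : ℕ => Real.exp (2 * (R + 1) / n - Real.log (1 - 1 / n) +
      2 * (Real.log n / n))) atTop (𝓝 1) := by
    have a1 := tendsto_const_div_atTop_nhds_zero_nat (2 * (R + 1))
    have a2 := ((tendsto_const_nhds (x := (1 : ℝ))).sub
      (tendsto_const_div_atTop_nhds_zero_nat (1 : ℝ))).log (by simp)
    have a3 : Tendsto (fun n : ℕ => Real.log n / n) atTop (𝓝 0) := by
      simpa [Function.comp_def] using (Real.tendsto_pow_log_div_mul_add_atTop 1 0 1 one_ne_zero).comp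
        tendsto_natCast_atTop_atTop
    simpa using ((a1.sub a2).add (a3.const_mul 2)).rexp
  exact tendsto_of_tendsto_of_tendsto_of_le_of_le' tendsto_const_nhds h1
    ((eventually_ge_atTop 2).mono fun n hn => (ratio hK hne hL hn).1)
    ((eventually_ge_atTop 2).mono fun n hn => (ratio hK hne hL hn).2)

end Pool.Agent.Results.MP_d057eb_an.Yes
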